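import Mathlib

/-!
# Project HA, module PS-2: closing a countable set under an operation of countable arity
-/

set_option autoImplicit false
set_option linter.unusedSectionVars false

namespace Pool.Agent.Helper69.HA

open Set Filter

/-- The arities: one operation of countable arity and countably many constants. -/
def h87Ar : Option ℕ → Type
  | none => ℕ
  | some _ => Empty

/-- The evaluation of a node. -/
def h87Node {X : Type} (f : (ℕ → X) → X) (N : ℕ → X) : (Σ a : Option ℕ, h87Ar a → X) → X
  | ⟨none, g⟩ => f g
  | ⟨some n, _⟩ => N n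

/-- PS-2 (file CloseOff.lean). -/
theorem exists_close_off {X : Type} (f : (ℕ → X) → X) (N : ℕ → X) :
    ∃ Y : Set X, (∀ n, N n ∈ Y) ∧ (∀ s : ℕ → X, (∀ n, s n ∈ Y) → f s ∈ Y) ∧
      Cardinal.mk Y ≤ Cardinal.continuum := by
  refine ⟨range (WType.elim X (h87Node f N) : WType h87Ar → X), ?_, ?_, ?_⟩
  · intro n
    exact ⟨WType.mk (some n) (fun e : Empty => e.elim), rfl⟩
  · intro s hs
    choose t ht using hs
    refine ⟨WType.mk none t, ?_⟩
    change f (fun k => WType.elim X (h87Node f N) (t k)) = f s
    congr 1
    funext k
    exact ht k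
  · refine Cardinal.mk_range_le.trans ?_
    refine WType.cardinalMk_le_of_le' ?_
    have h1 : ∀ a : Option ℕ, Cardinal.continuum ^ Cardinal.lift.{0} (Cardinal.mk (h87Ar a)) ≤
        Cardinal.continuum := by
      intro a
      rcases a with _ | n
      · change Cardinal.continuum ^ Cardinal.lift.{0} (Cardinal.mk ℕ) ≤ Cardinal.continuum
        rw [Cardinal.mk_nat, Cardinal.lift_aleph0, Cardinal.continuum_power_aleph0]
      · change Cardinal.continuum ^ Cardinal.lift.{0} (Cardinal.mk Empty) ≤ Cardinal.continuum
        simp only [Cardinal.mk_eq_zero, Cardinal.lift_zero, Cardinal.power_zero]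
        exact Cardinal.one_le_aleph0.trans Cardinal.aleph0_le_continuum
    refine (Cardinal.sum_le_sum _ _ h1).trans ?_
    rw [Cardinal.sum_const]
    simp

end Pool.Agent.Helper69.HA
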